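import Pool.Agent.H62.Sphere.Rows0
import Pool.Agent.H62.Sphere.Rows1
import Pool.Agent.H62.Sphere.Rows2
import Pool.Agent.H62.Sphere.Rows3
import Pool.Agent.H62.Sphere.Rows4

/-!
All pairs of pieces.
-/

namespace Pool.Agent.H62.Sphere

/-- the list of all pieces -/
def FF : List (List (List ℤ)) :=
  [F14, F22, F26, F28, F38, F42, F44, F50, F52, F56, F70, F74, F76, F82, F84, F88, F98, F100, F104, F112]

theorem row14 : ∀ M ∈ [F14, F22, F26, F28, F38, F42, F44, F50, F52, F56, F70, F74, F76, F82, F84, F88, F98, F100, F104, F112], Good F14 M := by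
  simp only [List.forall_mem_cons, List.not_mem_nil, false_imp_iff, implies_true, and_true]
  exact ⟨cert14_14, cert14_22, cert14_26, cert14_28, cert14_38, cert14_42, cert14_44, cert14_50, cert14_52, cert14_56, cert14_70, cert14_74, cert14_76, cert14_82, cert14_84, cert14_88, cert14_98, cert14_100, cert14_104, cert14_112⟩

theorem row22 : ∀ M ∈ [F22, F26, F28, F38, F42, F44, F50, F52, F56, F70, F74, F76, F82, F84, F88, F98, F100, F104, F112], Good F22 M := by
  simp only [List.forall_mem_cons, List.not_mem_nil, false_imp_iff, implies_true, and_true]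
  exact ⟨cert22_22, cert22_26, cert22_28, cert22_38, cert22_42, cert22_44, cert22_50, cert22_52, cert22_56, cert22_70, cert22_74, cert22_76, cert22_82, cert22_84, cert22_88, cert22_98, cert22_100, cert22_104, cert22_112⟩

theorem row26 : ∀ M ∈ [F26, F28, F38, F42, F44, F50, F52, F56, F70, F74, F76, F82, F84, F88, F98, F100, F104, F112], Good F26 M := by
  simp only [List.forall_mem_cons, List.not_mem_nil, false_imp_iff, implies_true, and_true]
  exact ⟨cert26_26, cert26_28, cert26_38, cert26_42, cert26_44, cert26_50, cert26_52, cert26_56, cert26_70, cert26_74, cert26_76, cert26_82, cert26_84, cert26_88, cert26_98, cert26_100, cert26_104, cert26_112⟩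

theorem row28 : ∀ M ∈ [F28, F38, F42, F44, F50, F52, F56, F70, F74, F76, F82, F84, F88, F98, F100, F104, F112], Good F28 M := by
  simp only [List.forall_mem_cons, List.not_mem_nil, false_imp_iff, implies_true, and_true]
  exact ⟨cert28_28, cert28_38, cert28_42, cert28_44, cert28_50, cert28_52, cert28_56, cert28_70, cert28_74, cert28_76, cert28_82, cert28_84, cert28_88, cert28_98, cert28_100, cert28_104, cert28_112⟩

theorem row38 : ∀ M ∈ [F38, F42, F44, F50, F52, F56, F70, F74, F76, F82, F84, F88, F98, F100, F104, F112], Good F38 M := by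
  simp only [List.forall_mem_cons, List.not_mem_nil, false_imp_iff, implies_true, and_true]
  exact ⟨cert38_38, cert38_42, cert38_44, cert38_50, cert38_52, cert38_56, cert38_70, cert38_74, cert38_76, cert38_82, cert38_84, cert38_88, cert38_98, cert38_100, cert38_104, cert38_112⟩

theorem row42 : ∀ M ∈ [F42, F44, F50, F52, F56, F70, F74, F76, F82, F84, F88, F98, F100, F104, F112], Good F42 M := by
  simp only [List.forall_mem_cons, List.not_mem_nil, false_imp_iff, implies_true, and_true]
  exact ⟨cert42_42, cert42_44, cert42_50, cert42_52, cert42_56, cert42_70, cert42_74, cert42_76, cert42_82, cert42_84, cert42_88, cert42_98, cert42_100, cert42_104, cert42_112⟩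

theorem row44 : ∀ M ∈ [F44, F50, F52, F56, F70, F74, F76, F82, F84, F88, F98, F100, F104, F112], Good F44 M := by
  simp only [List.forall_mem_cons, List.not_mem_nil, false_imp_iff, implies_true, and_true]
  exact ⟨cert44_44, cert44_50, cert44_52, cert44_56, cert44_70, cert44_74, cert44_76, cert44_82, cert44_84, cert44_88, cert44_98, cert44_100, cert44_104, cert44_112⟩

theorem row50 : ∀ M ∈ [F50, F52, F56, F70, F74, F76, F82, F84, F88, F98, F100, F104, F112], Good F50 M := by
  simp only [List.forall_mem_cons, List.not_mem_nil, false_imp_iff, implies_true, and_true]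
  exact ⟨cert50_50, cert50_52, cert50_56, cert50_70, cert50_74, cert50_76, cert50_82, cert50_84, cert50_88, cert50_98, cert50_100, cert50_104, cert50_112⟩

theorem row52 : ∀ M ∈ [F52, F56, F70, F74, F76, F82, F84, F88, F98, F100, F104, F112], Good F52 M := by
  simp only [List.forall_mem_cons, List.not_mem_nil, false_imp_iff, implies_true, and_true]
  exact ⟨cert52_52, cert52_56, cert52_70, cert52_74, cert52_76, cert52_82, cert52_84, cert52_88, cert52_98, cert52_100, cert52_104, cert52_112⟩

theorem row56 : ∀ M ∈ [F56, F70, F74, F76, F82, F84, F88, F98, F100, F104, F112], Good F56 M := by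
  simp only [List.forall_mem_cons, List.not_mem_nil, false_imp_iff, implies_true, and_true]
  exact ⟨cert56_56, cert56_70, cert56_74, cert56_76, cert56_82, cert56_84, cert56_88, cert56_98, cert56_100, cert56_104, cert56_112⟩

theorem row70 : ∀ M ∈ [F70, F74, F76, F82, F84, F88, F98, F100, F104, F112], Good F70 M := by
  simp only [List.forall_mem_cons, List.not_mem_nil, false_imp_iff, implies_true, and_true]
  exact ⟨cert70_70, cert70_74, cert70_76, cert70_82, cert70_84, cert70_88, cert70_98, cert70_100, cert70_104, cert70_112⟩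

theorem row74 : ∀ M ∈ [F74, F76, F82, F84, F88, F98, F100, F104, F112], Good F74 M := by
  simp only [List.forall_mem_cons, List.not_mem_nil, false_imp_iff, implies_true, and_true]
  exact ⟨cert74_74, cert74_76, cert74_82, cert74_84, cert74_88, cert74_98, cert74_100, cert74_104, cert74_112⟩

theorem row76 : ∀ M ∈ [F76, F82, F84, F88, F98, F100, F104, F112], Good F76 M := by
  simp only [List.forall_mem_cons, List.not_mem_nil, false_imp_iff, implies_true, and_true]
  exact ⟨cert76_76, cert76_82, cert76_84, cert76_88, cert76_98, cert76_100, cert76_104, cert76_112⟩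

theorem row82 : ∀ M ∈ [F82, F84, F88, F98, F100, F104, F112], Good F82 M := by
  simp only [List.forall_mem_cons, List.not_mem_nil, false_imp_iff, implies_true, and_true]
  exact ⟨cert82_82, cert82_84, cert82_88, cert82_98, cert82_100, cert82_104, cert82_112⟩

theorem row84 : ∀ M ∈ [F84, F88, F98, F100, F104, F112], Good F84 M := by
  simp only [List.forall_mem_cons, List.not_mem_nil, false_imp_iff, implies_true, and_true]
  exact ⟨cert84_84, cert84_88, cert84_98, cert84_100, cert84_104, cert84_112⟩

theorem row88 : ∀ M ∈ [F88, F98, F100, F104, F112], Good F88 M := by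
  simp only [List.forall_mem_cons, List.not_mem_nil, false_imp_iff, implies_true, and_true]
  exact ⟨cert88_88, cert88_98, cert88_100, cert88_104, cert88_112⟩

theorem row98 : ∀ M ∈ [F98, F100, F104, F112], Good F98 M := by
  simp only [List.forall_mem_cons, List.not_mem_nil, false_imp_iff, implies_true, and_true]
  exact ⟨cert98_98, cert98_100, cert98_104, cert98_112⟩

theorem row100 : ∀ M ∈ [F100, F104, F112], Good F100 M := by
  simp only [List.forall_mem_cons, List.not_mem_nil, false_imp_iff, implies_true, and_true]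
  exact ⟨cert100_100, cert100_104, cert100_112⟩

theorem row104 : ∀ M ∈ [F104, F112], Good F104 M := by
  simp only [List.forall_mem_cons, List.not_mem_nil, false_imp_iff, implies_true, and_true]
  exact ⟨cert104_104, cert104_112⟩

theorem row112 : ∀ M ∈ [F112], Good F112 M := by
  simp only [List.forall_mem_cons, List.not_mem_nil, false_imp_iff, implies_true, and_true]
  exact cert112_112

theorem pw : FF.Pairwise (fun L M => Good L M ∨ Good M L) := by
  unfold FF
  refine List.Pairwise.cons (fun M hM => Or.inl (row14 M (List.mem_cons_of_mem _ hM))) ?_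
  refine List.Pairwise.cons (fun M hM => Or.inl (row22 M (List.mem_cons_of_mem _ hM))) ?_
  refine List.Pairwise.cons (fun M hM => Or.inl (row26 M (List.mem_cons_of_mem _ hM))) ?_
  refine List.Pairwise.cons (fun M hM => Or.inl (row28 M (List.mem_cons_of_mem _ hM))) ?_
  refine List.Pairwise.cons (fun M hM => Or.inl (row38 M (List.mem_cons_of_mem _ hM))) ?_
  refine List.Pairwise.cons (fun M hM => Or.inl (row42 M (List.mem_cons_of_mem _ hM))) ?_
  refine List.Pairwise.cons (fun M hM => Or.inl (row44 M (List.mem_cons_of_mem _ hM))) ?_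
  refine List.Pairwise.cons (fun M hM => Or.inl (row50 M (List.mem_cons_of_mem _ hM))) ?_
  refine List.Pairwise.cons (fun M hM => Or.inl (row52 M (List.mem_cons_of_mem _ hM))) ?_
  refine List.Pairwise.cons (fun M hM => Or.inl (row56 M (List.mem_cons_of_mem _ hM))) ?_
  refine List.Pairwise.cons (fun M hM => Or.inl (row70 M (List.mem_cons_of_mem _ hM))) ?_
  refine List.Pairwise.cons (fun M hM => Or.inl (row74 M (List.mem_cons_of_mem _ hM))) ?_
  refine List.Pairwise.cons (fun M hM => Or.inl (row76 M (List.mem_cons_of_mem _ hM))) ?_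
  refine List.Pairwise.cons (fun M hM => Or.inl (row82 M (List.mem_cons_of_mem _ hM))) ?_
  refine List.Pairwise.cons (fun M hM => Or.inl (row84 M (List.mem_cons_of_mem _ hM))) ?_
  refine List.Pairwise.cons (fun M hM => Or.inl (row88 M (List.mem_cons_of_mem _ hM))) ?_
  refine List.Pairwise.cons (fun M hM => Or.inl (row98 M (List.mem_cons_of_mem _ hM))) ?_
  refine List.Pairwise.cons (fun M hM => Or.inl (row100 M (List.mem_cons_of_mem _ hM))) ?_
  refine List.Pairwise.cons (fun M hM => Or.inl (row104 M (List.mem_cons_of_mem _ hM))) ?_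
  refine List.Pairwise.cons (fun M hM => Or.inl (row112 M (List.mem_cons_of_mem _ hM))) ?_
  exact List.Pairwise.nil

theorem refl_all : ∀ M ∈ FF, Good M M ∨ Good M M := by
  unfold FF
  simp only [List.forall_mem_cons, List.not_mem_nil, false_imp_iff, implies_true, and_true]
  exact ⟨Or.inl cert14_14, Or.inl cert22_22, Or.inl cert26_26, Or.inl cert28_28, Or.inl cert38_38, Or.inl cert42_42, Or.inl cert44_44, Or.inl cert50_50, Or.inl cert52_52, Or.inl cert56_56, Or.inl cert70_70, Or.inl cert74_74, Or.inl cert76_76, Or.inl cert82_82, Or.inl cert84_84, Or.inl cert88_88, Or.inl cert98_98, Or.inl cert100_100, Or.inl cert104_104, Or.inl cert112_112⟩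

theorem all_sets : ∀ A : Finset (Fin 7), A.card = 3 → 0 ∉ A →
    A ∈ [({1, 2, 3} : Finset (Fin 7)),
      ({1, 2, 4} : Finset (Fin 7)),
      ({1, 3, 4} : Finset (Fin 7)),
      ({2, 3, 4} : Finset (Fin 7)),
      ({1, 2, 5} : Finset (Fin 7)),
      ({1, 3, 5} : Finset (Fin 7)),
      ({2, 3, 5} : Finset (Fin 7)),
      ({1, 4, 5} : Finset (Fin 7)),
      ({2, 4, 5} : Finset (Fin 7)),
      ({3, 4, 5} : Finset (Fin 7)),
      ({1, 2, 6} : Finset (Fin 7)),
      ({1, 3, 6} : Finset (Fin 7)),
      ({2, 3, 6} : Finset (Fin 7)),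
      ({1, 4, 6} : Finset (Fin 7)),
      ({2, 4, 6} : Finset (Fin 7)),
      ({3, 4, 6} : Finset (Fin 7)),
      ({1, 5, 6} : Finset (Fin 7)),
      ({2, 5, 6} : Finset (Fin 7)),
      ({3, 5, 6} : Finset (Fin 7)),
      ({4, 5, 6} : Finset (Fin 7))] := by
  decide +kernel

theorem forms_mem {A : Finset (Fin 7)} (hA : A.card = 3) (h0 : 0 ∉ A) : forms A ∈ FF := by
  have h := all_sets A hA h0
  simp only [List.mem_cons, List.not_mem_nil, or_false] at h
  rcases h with rfl | rfl | rfl | rfl | rfl | rfl | rfl | rfl | rfl | rfl | rfl | rfl | rfl | rfl | rfl | rfl | rfl | rfl | rfl | rfl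
  · rw [forms14]; simp [FF]
  · rw [forms22]; simp [FF]
  · rw [forms26]; simp [FF]
  · rw [forms28]; simp [FF]
  · rw [forms38]; simp [FF]
  · rw [forms42]; simp [FF]
  · rw [forms44]; simp [FF]
  · rw [forms50]; simp [FF]
  · rw [forms52]; simp [FF]
  · rw [forms56]; simp [FF]
  · rw [forms70]; simp [FF]
  · rw [forms74]; simp [FF]
  · rw [forms76]; simp [FF]
  · rw [forms82]; simp [FF]
  · rw [forms84]; simp [FF]
  · rw [forms88]; simp [FF]
  · rw [forms98]; simp [FF]
  · rw [forms100]; simp [FF]
  · rw [forms104]; simp [FF]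
  · rw [forms112]; simp [FF]

end Pool.Agent.H62.Sphere
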