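import Mathlib

/-!
A checker for certificates of nonnegativity of a quadratic form in `(x, y)` on a product of two
polyhedral cones: the form is a nonnegative combination of products of the linear forms defining
the cones, plus squares, plus a diagonally dominant form.
-/

namespace Pool.Agent.H62.Sphere

/-- `∑ aᵢ zᵢ` -/
def dot : List ℤ → List ℝ → ℝ
  | a :: l, x :: z => a * x + dot l z
  | _, _ => 0

/-- `row + c • m` -/
def axpy (c : ℤ) : List ℤ → List ℤ → List ℤ
  | b :: m, d :: row => (d + c * b) :: axpy c m row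
  | [], row => row
  | b :: m, [] => (c * b) :: axpy c m []

/-- quadratic form with triangular coefficient list -/
def qt : List (List ℤ) → List ℝ → ℝ
  | row :: t, x :: z => x * dot row (x :: z) + qt t z
  | _, _ => 0

/-- bilinear form -/
def qr : List (List ℤ) → List ℝ → List ℝ → ℝ
  | row :: t, x :: z, y => x * dot row y + qr t z y
  | _, _, _ => 0

/-- add `c ℓ m` to a quadratic form -/
def triAdd (c : ℤ) : List ℤ → List ℤ → List (List ℤ) → List (List ℤ)
  | a :: l, b :: m, (d :: row) :: t =>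
      ((d + c * a * b) :: axpy (c * a) m (axpy (c * b) l row)) :: triAdd c l m t
  | a :: l, b :: m, [] :: t =>
      ((c * a * b) :: axpy (c * a) m (axpy (c * b) l [])) :: triAdd c l m t
  | a :: l, b :: m, [] =>
      ((c * a * b) :: axpy (c * a) m (axpy (c * b) l [])) :: triAdd c l m []
  | [], _, t => t
  | _ :: _, [], t => t

/-- add `c ℓ m` to a bilinear form -/
def rectAdd (c : ℤ) : List ℤ → List ℤ → List (List ℤ) → List (List ℤ)
  | a :: l, m, row :: t => axpy (c * a) m row :: rectAdd c l m t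
  | a :: l, m, [] => axpy (c * a) m [] :: rectAdd c l m []
  | [], _, t => t

/-- `∑ wᵢ zᵢ²` -/
def wsum : List ℤ → List ℝ → ℝ
  | a :: l, x :: z => a * x ^ 2 + wsum l z
  | _, _ => 0

/-- `∑ |aᵢ|` -/
def sabs : List ℤ → ℤ
  | a :: l => (a.natAbs : ℤ) + sabs l
  | [] => 0

/-- `w + |a|` -/
def addAbs : List ℤ → List ℤ → List ℤ
  | a :: l, w :: v => ((a.natAbs : ℤ) + w) :: addAbs l v
  | [], v => v
  | a :: l, [] => (a.natAbs : ℤ) :: addAbs l []

/-- diagonal dominance for the rows of the first block -/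
def ddX : List (List ℤ) → List (List ℤ) → List ℤ → List ℤ → Option (List ℤ)
  | (d :: row) :: xx, r :: xy, w :: dx, dy =>
      if w + sabs row + sabs r ≤ 2 * d then ddX xx xy (addAbs row dx) (addAbs r dy) else none
  | [], [], [], dy => some dy
  | _, _, _, _ => none

/-- diagonal dominance for the rows of the second block -/
def ddY : List (List ℤ) → List ℤ → Bool
  | (d :: row) :: yy, w :: dy =>
      if w + sabs row ≤ 2 * d then ddY yy (addAbs row dy) else false
  | [], [] => true
  | _, _ => false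

/-- a certificate -/
structure Cert where
  /-- products of two forms in `x` -/
  xx : List (ℕ × ℕ × ℕ)
  /-- products of a form in `x` and a form in `y` -/
  xy : List (ℕ × ℕ × ℕ)
  /-- products of two forms in `y` -/
  yy : List (ℕ × ℕ × ℕ)
  /-- squares -/
  sq : List (List ℤ × List ℤ)

def foldTri (L : List (List ℤ)) : List (ℕ × ℕ × ℕ) → List (List ℤ) → List (List ℤ)
  | (i, j, c) :: ps, t => foldTri L ps (triAdd (-2 * (c : ℤ)) (L.getD i []) (L.getD j []) t)
  | [], t => t

def foldRect (L M : List (List ℤ)) : List (ℕ × ℕ × ℕ) → List (List ℤ) → List (List ℤ)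
  | (i, j, c) :: ps, t => foldRect L M ps (rectAdd (-2 * (c : ℤ)) (L.getD i []) (M.getD j []) t)
  | [], t => t

def sqXX : List (List ℤ × List ℤ) → List (List ℤ) → List (List ℤ)
  | (a, _) :: ps, t => sqXX ps (triAdd (-1) a a t)
  | [], t => t

def sqXY : List (List ℤ × List ℤ) → List (List ℤ) → List (List ℤ)
  | (a, b) :: ps, t => sqXY ps (rectAdd (-2) a b t)
  | [], t => t

def sqYY : List (List ℤ × List ℤ) → List (List ℤ) → List (List ℤ)
  | (_, b) :: ps, t => sqYY ps (triAdd (-1) b b t)
  | [], t => t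

/-- The checker. `xx0`, `xy0`, `yy0` are the coefficients of the target form. -/
def check (xx0 xy0 yy0 : List (List ℤ)) (L M : List (List ℤ)) (c : Cert) : Bool :=
  match ddX (sqXX c.sq (foldTri L c.xx xx0)) (sqXY c.sq (foldRect L M c.xy xy0))
      [0, 0, 0, 0, 0, 0] [0, 0, 0, 0, 0, 0] with
  | some dy => ddY (sqYY c.sq (foldTri M c.yy yy0)) dy
  | none => false

/-! ### Soundness -/

@[simp] lemma dot_nil_left (z : List ℝ) : dot [] z = 0 := by cases z <;> rfl
@[simp] lemma dot_nil_right (l : List ℤ) : dot l [] = 0 := by cases l <;> rfl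
@[simp] lemma dot_cons (a : ℤ) (l : List ℤ) (x : ℝ) (z : List ℝ) :
    dot (a :: l) (x :: z) = a * x + dot l z := rfl

lemma dot_axpy (c : ℤ) : ∀ (m row : List ℤ) (z : List ℝ),
    dot (axpy c m row) z = dot row z + c * dot m z
  | b :: m, d :: row, [] => by simp
  | b :: m, d :: row, x :: z => by
      simp only [axpy, dot_cons, dot_axpy c m row z]
      push_cast; ring
  | [], row, z => by simp [axpy]
  | b :: m, [], [] => by simp
  | b :: m, [], x :: z => by
      simp only [axpy, dot_cons, dot_axpy c m [] z, dot_nil_left]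
      push_cast; ring

@[simp] lemma qt_nil_left (z : List ℝ) : qt [] z = 0 := by cases z <;> rfl
@[simp] lemma qt_nil_right (t : List (List ℤ)) : qt t [] = 0 := by cases t <;> rfl
@[simp] lemma qt_cons (row : List ℤ) (t : List (List ℤ)) (x : ℝ) (z : List ℝ) :
    qt (row :: t) (x :: z) = x * dot row (x :: z) + qt t z := rfl

@[simp] lemma qr_nil_left (z y : List ℝ) : qr [] z y = 0 := by cases z <;> rfl
@[simp] lemma qr_nil_right (t : List (List ℤ)) (y : List ℝ) : qr t [] y = 0 := by cases t <;> rfl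
@[simp] lemma qr_cons (row : List ℤ) (t : List (List ℤ)) (x : ℝ) (z y : List ℝ) :
    qr (row :: t) (x :: z) y = x * dot row y + qr t z y := rfl

lemma qt_triAdd (c : ℤ) : ∀ (l m : List ℤ) (t : List (List ℤ)) (z : List ℝ),
    qt (triAdd c l m t) z = qt t z + c * dot l z * dot m z
  | a :: l, b :: m, (d :: row) :: t, [] => by simp
  | a :: l, b :: m, (d :: row) :: t, x :: z => by
      simp only [triAdd, qt_cons, dot_cons, dot_axpy, qt_triAdd c l m t z]
      push_cast; ring
  | a :: l, b :: m, [] :: t, [] => by simp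
  | a :: l, b :: m, [] :: t, x :: z => by
      simp only [triAdd, qt_cons, dot_cons, dot_axpy, qt_triAdd c l m t z, dot_nil_left]
      push_cast; ring
  | a :: l, b :: m, [], [] => by simp
  | a :: l, b :: m, [], x :: z => by
      simp only [triAdd, qt_cons, dot_cons, dot_axpy, qt_triAdd c l m [] z, dot_nil_left,
        qt_nil_left]
      push_cast; ring
  | [], m, t, z => by simp [triAdd]
  | a :: l, [], t, z => by simp [triAdd]

lemma qr_rectAdd (c : ℤ) : ∀ (l m : List ℤ) (t : List (List ℤ)) (z y : List ℝ),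
    qr (rectAdd c l m t) z y = qr t z y + c * dot l z * dot m y
  | a :: l, m, row :: t, [], y => by simp
  | a :: l, m, row :: t, x :: z, y => by
      simp only [rectAdd, qr_cons, dot_cons, dot_axpy, qr_rectAdd c l m t z y]
      push_cast; ring
  | a :: l, m, [], [], y => by simp
  | a :: l, m, [], x :: z, y => by
      simp only [rectAdd, qr_cons, dot_cons, dot_axpy, qr_rectAdd c l m [] z y, dot_nil_left,
        qr_nil_left]
      push_cast; ring
  | [], m, t, z, y => by simp [rectAdd]

@[simp] lemma wsum_nil_left (z : List ℝ) : wsum [] z = 0 := by cases z <;> rfl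
@[simp] lemma wsum_nil_right (l : List ℤ) : wsum l [] = 0 := by cases l <;> rfl
@[simp] lemma wsum_cons (a : ℤ) (l : List ℤ) (x : ℝ) (z : List ℝ) :
    wsum (a :: l) (x :: z) = a * x ^ 2 + wsum l z := rfl

lemma two_mul_le (a : ℤ) (x y : ℝ) :
    0 ≤ 2 * (a * x * y) + ((a.natAbs : ℤ) : ℝ) * x ^ 2 + ((a.natAbs : ℤ) : ℝ) * y ^ 2 := by
  have h1 : ((a.natAbs : ℤ) : ℝ) = |(a : ℝ)| := by
    rw [← Int.cast_abs, Int.abs_eq_natAbs]
  rw [h1]
  rcases abs_cases (a : ℝ) with ⟨h, h'⟩ | ⟨h, h'⟩
  · rw [h]; nlinarith [mul_nonneg h' (sq_nonneg (x + y))]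
  · rw [h]; nlinarith [mul_nonneg (neg_nonneg.mpr h'.le) (sq_nonneg (x - y))]

lemma sabs_nonneg : ∀ l : List ℤ, 0 ≤ sabs l
  | [] => le_rfl
  | a :: l => by
      have := sabs_nonneg l
      simp only [sabs]; positivity

lemma wsum_addAbs (x : ℝ) : ∀ (row v : List ℤ) (z : List ℝ),
    wsum v z - sabs row * x ^ 2 ≤ 2 * (x * dot row z) + wsum (addAbs row v) z
  | a :: l, w :: v, [] => by
      have h : (0 : ℝ) ≤ sabs (a :: l) := by exact_mod_cast sabs_nonneg _
      have : 0 ≤ (sabs (a :: l) : ℝ) * x ^ 2 := by positivity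
      simp only [wsum_nil_right, dot_nil_right]; linarith
  | a :: l, w :: v, y :: z => by
      have h1 := wsum_addAbs x l v z
      have h2 := two_mul_le a x y
      simp only [addAbs, sabs, wsum_cons, dot_cons]
      push_cast at h1 h2 ⊢
      nlinarith [h1, h2]
  | [], v, z => by simp [addAbs, sabs]
  | a :: l, [], [] => by
      have h : (0 : ℝ) ≤ sabs (a :: l) := by exact_mod_cast sabs_nonneg _
      have : 0 ≤ (sabs (a :: l) : ℝ) * x ^ 2 := by positivity
      simp only [wsum_nil_right, dot_nil_right]; linarith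
  | a :: l, [], y :: z => by
      have h1 := wsum_addAbs x l [] z
      have h2 := two_mul_le a x y
      simp only [addAbs, sabs, wsum_cons, dot_cons, wsum_nil_left] at h1 ⊢
      push_cast at h1 h2 ⊢
      nlinarith [h1, h2]

lemma ddY_sound : ∀ (yy : List (List ℤ)) (dy : List ℤ) (z : List ℝ),
    ddY yy dy = true → wsum dy z ≤ 2 * qt yy z
  | (d :: row) :: yy, w :: dy, [], _ => by simp
  | (d :: row) :: yy, w :: dy, y :: z, h => by
      simp only [ddY] at h
      split_ifs at h with hw
      have h1 := ddY_sound yy _ z h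
      have h2 := wsum_addAbs y row dy z
      have hw' : (w : ℝ) + sabs row ≤ 2 * d := by exact_mod_cast hw
      have h3 : ((w : ℝ) + sabs row) * y ^ 2 ≤ 2 * d * y ^ 2 :=
        mul_le_mul_of_nonneg_right hw' (sq_nonneg y)
      simp only [wsum_cons, qt_cons, dot_cons]
      nlinarith [h1, h2, h3]
  | [], [], z, _ => by simp
  | [] :: _, _, _, h => by simp [ddY] at h
  | (_ :: _) :: _, [], _, h => by simp [ddY] at h
  | [], _ :: _, _, h => by simp [ddY] at h

lemma ddX_mono : ∀ (xx xy : List (List ℤ)) (dx dy dy' : List ℤ) (y : List ℝ),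
    ddX xx xy dx dy = some dy' → wsum dy y ≤ wsum dy' y
  | (d :: row) :: xx, r :: xy, w :: dx, dy, dy', y, h => by
      simp only [ddX] at h
      split_ifs at h with hw
      have h1 := ddX_mono xx xy _ _ dy' y h
      have h4 := wsum_addAbs 0 r dy y
      simp only [ne_eq, OfNat.ofNat_ne_zero, not_false_eq_true, zero_pow, mul_zero, sub_zero,
        zero_mul, zero_add] at h4
      linarith
  | [], [], [], dy, dy', y, h => by
      simp only [ddX, Option.some.injEq] at h
      subst h; simp
  | [] :: _, _, _, _, _, _, h => by simp [ddX] at h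
  | (_ :: _) :: _, [], _, _, _, _, h => by simp [ddX] at h
  | (_ :: _) :: _, _ :: _, [], _, _, _, h => by simp [ddX] at h
  | [], _ :: _, _, _, _, _, h => by simp [ddX] at h
  | [], [], _ :: _, _, _, _, h => by simp [ddX] at h

lemma ddX_sound : ∀ (xx xy : List (List ℤ)) (dx dy dy' : List ℤ) (z y : List ℝ),
    ddX xx xy dx dy = some dy' →
      wsum dx z + wsum dy y ≤ 2 * (qt xx z + qr xy z y) + wsum dy' y
  | (d :: row) :: xx, r :: xy, w :: dx, dy, dy', [], y, h => by
      have := ddX_mono _ _ _ _ _ y h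
      simp only [wsum_nil_right, qt_nil_right, qr_nil_right]
      linarith
  | (d :: row) :: xx, r :: xy, w :: dx, dy, dy', x :: z, y, h => by
      simp only [ddX] at h
      split_ifs at h with hw
      have h1 := ddX_sound xx xy _ _ dy' z y h
      have h2 := wsum_addAbs x row dx z
      have h4 := wsum_addAbs x r dy y
      have hw' : (w : ℝ) + sabs row + sabs r ≤ 2 * d := by exact_mod_cast hw
      have h3 : ((w : ℝ) + sabs row + sabs r) * x ^ 2 ≤ 2 * d * x ^ 2 :=
        mul_le_mul_of_nonneg_right hw' (sq_nonneg x)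
      simp only [wsum_cons, qt_cons, dot_cons, qr_cons]
      nlinarith [h1, h2, h3, h4]
  | [], [], [], dy, dy', z, y, h => by
      simp only [ddX, Option.some.injEq] at h
      subst h; simp
  | [] :: _, _, _, _, _, _, _, h => by simp [ddX] at h
  | (_ :: _) :: _, [], _, _, _, _, _, h => by simp [ddX] at h
  | (_ :: _) :: _, _ :: _, [], _, _, _, _, h => by simp [ddX] at h
  | [], _ :: _, _, _, _, _, _, h => by simp [ddX] at h
  | [], [], _ :: _, _, _, _, _, h => by simp [ddX] at h

lemma qt_foldTri (L : List (List ℤ)) (z : List ℝ) (hL : ∀ i, 0 ≤ dot (L.getD i []) z) :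
    ∀ (ps : List (ℕ × ℕ × ℕ)) (t : List (List ℤ)), qt (foldTri L ps t) z ≤ qt t z
  | (i, j, c) :: ps, t => by
      simp only [foldTri]
      refine (qt_foldTri L z hL ps _).trans ?_
      rw [qt_triAdd]
      have h := mul_nonneg (hL i) (hL j)
      have h2 : (0 : ℝ) ≤ (c : ℝ) := Nat.cast_nonneg c
      have h3 := mul_nonneg h2 h
      push_cast
      nlinarith [h3]
  | [], t => le_rfl

lemma qr_foldRect (L M : List (List ℤ)) (z y : List ℝ) (hL : ∀ i, 0 ≤ dot (L.getD i []) z)
    (hM : ∀ i, 0 ≤ dot (M.getD i []) y) :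
    ∀ (ps : List (ℕ × ℕ × ℕ)) (t : List (List ℤ)), qr (foldRect L M ps t) z y ≤ qr t z y
  | (i, j, c) :: ps, t => by
      simp only [foldRect]
      refine (qr_foldRect L M z y hL hM ps _).trans ?_
      rw [qr_rectAdd]
      have h := mul_nonneg (hL i) (hM j)
      have h2 : (0 : ℝ) ≤ (c : ℝ) := Nat.cast_nonneg c
      have h3 := mul_nonneg h2 h
      push_cast
      nlinarith [h3]
  | [], t => le_rfl

lemma sq_sound (z y : List ℝ) : ∀ (ps : List (List ℤ × List ℤ)) (t u v : List (List ℤ)),
    qt (sqXX ps t) z + qr (sqXY ps u) z y + qt (sqYY ps v) y ≤ qt t z + qr u z y + qt v y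
  | (a, b) :: ps, t, u, v => by
      simp only [sqXX, sqXY, sqYY]
      refine (sq_sound z y ps _ _ _).trans ?_
      rw [qt_triAdd, qt_triAdd, qr_rectAdd]
      push_cast
      nlinarith [sq_nonneg (dot a z + dot b y)]
  | [], t, u, v => le_rfl

lemma wsum_zeros : ∀ (n : ℕ) (z : List ℝ), wsum (List.replicate n 0) z = 0
  | 0, z => by simp
  | n + 1, [] => by simp
  | n + 1, x :: z => by simp [List.replicate_succ, wsum_zeros n z]

theorem check_sound {xx0 xy0 yy0 L M : List (List ℤ)} {c : Cert}
    (h : check xx0 xy0 yy0 L M c = true) (z y : List ℝ)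
    (hL : ∀ i, 0 ≤ dot (L.getD i []) z) (hM : ∀ i, 0 ≤ dot (M.getD i []) y) :
    0 ≤ qt xx0 z + qr xy0 z y + qt yy0 y := by
  unfold check at h
  split at h
  · rename_i dy hdy
    have h1 := ddX_sound _ _ _ _ _ z y hdy
    have h2 := ddY_sound _ _ y h
    have h3 : wsum [0, 0, 0, 0, 0, 0] z = 0 := wsum_zeros 6 z
    have h4 : wsum [0, 0, 0, 0, 0, 0] y = 0 := wsum_zeros 6 y
    have h5 := sq_sound z y c.sq (foldTri L c.xx xx0) (foldRect L M c.xy xy0) (foldTri M c.yy yy0)
    have h6 := qt_foldTri L z hL c.xx xx0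
    have h7 := qt_foldTri M y hM c.yy yy0
    have h8 := qr_foldRect L M z y hL hM c.xy xy0
    linarith
  · simp at h

end Pool.Agent.H62.Sphere
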