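import Pool.Agent.H62.Sphere.Pieces

/-!
The linear forms defining the 20 pieces, written out, and the target quadratic form.
-/

namespace Pool.Agent.H62.Sphere

/-- coefficients of the target form: `x²` and `y²` blocks -/
def xx0 : List (List ℤ) :=
  [[299960000000, 299960000000, 299960000000, 299960000000, 299960000000, 299960000000],
   [299960000000, 299960000000, 299960000000, 299960000000, 299960000000],
   [299960000000, 299960000000, 299960000000, 299960000000],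
   [299960000000, 299960000000, 299960000000],
   [299960000000, 299960000000],
   [299960000000]]

/-- coefficients of the target form: `xy` block -/
def xy0 : List (List ℤ) :=
  [[800000000000, 400000000000, 400000000000, 400000000000, 400000000000, 400000000000],
   [400000000000, 800000000000, 400000000000, 400000000000, 400000000000, 400000000000],
   [400000000000, 400000000000, 800000000000, 400000000000, 400000000000, 400000000000],
   [400000000000, 400000000000, 400000000000, 800000000000, 400000000000, 400000000000],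
   [400000000000, 400000000000, 400000000000, 400000000000, 800000000000, 400000000000],
   [400000000000, 400000000000, 400000000000, 400000000000, 400000000000, 800000000000]]

/-- a certificate exists for the pair of pieces with forms `L`, `M` -/
def Good (L M : List (List ℤ)) : Prop := ∃ c : Cert, check xx0 xy0 xx0 L M c = true

/-- the forms of the piece with mask 14 -/
def F14 : List (List ℤ) :=
  [[1, -1, 0, 0, 0, 0],
   [0, -1, 0, 0, 1, 0],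
   [0, -1, 0, 0, 0, 1],
   [-1, -2, -1, -1, -1, -1],
   [1, 0, -1, 0, 0, 0],
   [0, 0, -1, 0, 1, 0],
   [0, 0, -1, 0, 0, 1],
   [-1, -1, -2, -1, -1, -1],
   [1, 0, 0, -1, 0, 0],
   [0, 0, 0, -1, 1, 0],
   [0, 0, 0, -1, 0, 1],
   [-1, -1, -1, -2, -1, -1],
   [1459, 103, -118, 107, -1347, -37],
   [1510, -208, -108, 19, -284, -1468],
   [2813, 1272, 1081, 1505, 949, 1144]]

/-- the forms of the piece with mask 22 -/
def F22 : List (List ℤ) :=
  [[1, -1, 0, 0, 0, 0],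
   [0, -1, 0, 1, 0, 0],
   [0, -1, 0, 0, 0, 1],
   [-1, -2, -1, -1, -1, -1],
   [1, 0, -1, 0, 0, 0],
   [0, 0, -1, 1, 0, 0],
   [0, 0, -1, 0, 0, 1],
   [-1, -1, -2, -1, -1, -1],
   [1, 0, 0, 0, -1, 0],
   [0, 0, 0, 1, -1, 0],
   [0, 0, 0, 0, -1, 1],
   [-1, -1, -1, -1, -2, -1],
   [1235, -157, -259, -1345, -166, 63],
   [1172, -322, -229, -63, -220, -1408],
   [2580, 1179, 1188, 1408, 1086, 1345]]

/-- the forms of the piece with mask 26 -/
def F26 : List (List ℤ) :=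
  [[1, -1, 0, 0, 0, 0],
   [0, -1, 1, 0, 0, 0],
   [0, -1, 0, 0, 0, 1],
   [-1, -2, -1, -1, -1, -1],
   [1, 0, 0, -1, 0, 0],
   [0, 0, 1, -1, 0, 0],
   [0, 0, 0, -1, 0, 1],
   [-1, -1, -1, -2, -1, -1],
   [1, 0, 0, 0, -1, 0],
   [0, 0, 1, 0, -1, 0],
   [0, 0, 0, 0, -1, 1],
   [-1, -1, -1, -1, -2, -1],
   [1003, -147, -1432, -80, -202, -143],
   [1146, -401, -143, -397, -460, -1754],
   [2435, 1205, 1003, 1150, 1083, 1146]]

/-- the forms of the piece with mask 28 -/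
def F28 : List (List ℤ) :=
  [[1, 0, -1, 0, 0, 0],
   [0, 1, -1, 0, 0, 0],
   [0, 0, -1, 0, 0, 1],
   [-1, -1, -2, -1, -1, -1],
   [1, 0, 0, -1, 0, 0],
   [0, 1, 0, -1, 0, 0],
   [0, 0, 0, -1, 0, 1],
   [-1, -1, -1, -2, -1, -1],
   [1, 0, 0, 0, -1, 0],
   [0, 1, 0, 0, -1, 0],
   [0, 0, 0, 0, -1, 1],
   [-1, -1, -1, -1, -2, -1],
   [1144, -1669, -128, 63, -361, 195],
   [1181, -173, 12, -18, -217, -1115],
   [2612, 1309, 1132, 1423, 1126, 1379]]

/-- the forms of the piece with mask 38 -/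
def F38 : List (List ℤ) :=
  [[1, -1, 0, 0, 0, 0],
   [0, -1, 0, 1, 0, 0],
   [0, -1, 0, 0, 1, 0],
   [-1, -2, -1, -1, -1, -1],
   [1, 0, -1, 0, 0, 0],
   [0, 0, -1, 1, 0, 0],
   [0, 0, -1, 0, 1, 0],
   [-1, -1, -2, -1, -1, -1],
   [1, 0, 0, 0, 0, -1],
   [0, 0, 0, 1, 0, -1],
   [0, 0, 0, 0, 1, -1],
   [-1, -1, -1, -1, -1, -2],
   [1233, -247, -253, -1379, -70, 44],
   [949, -323, -556, -195, -1864, -132],
   [2296, 1127, 898, 1115, 942, 1097]]

/-- the forms of the piece with mask 42 -/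
def F42 : List (List ℤ) :=
  [[1, -1, 0, 0, 0, 0],
   [0, -1, 1, 0, 0, 0],
   [0, -1, 0, 0, 1, 0],
   [-1, -2, -1, -1, -1, -1],
   [1, 0, 0, -1, 0, 0],
   [0, 0, 1, -1, 0, 0],
   [0, 0, 0, -1, 1, 0],
   [-1, -1, -1, -2, -1, -1],
   [1, 0, 0, 0, 0, -1],
   [0, 0, 1, 0, 0, -1],
   [0, 0, 0, 0, 1, -1],
   [-1, -1, -1, -1, -1, -2],
   [1012, -362, -1482, -41, -51, -139],
   [942, -185, -173, -155, -1354, 44],
   [2806, 1356, 1496, 1577, 1459, 1352]]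

/-- the forms of the piece with mask 44 -/
def F44 : List (List ℤ) :=
  [[1, 0, -1, 0, 0, 0],
   [0, 1, -1, 0, 0, 0],
   [0, 0, -1, 0, 1, 0],
   [-1, -1, -2, -1, -1, -1],
   [1, 0, 0, -1, 0, 0],
   [0, 1, 0, -1, 0, 0],
   [0, 0, 0, -1, 1, 0],
   [-1, -1, -1, -2, -1, -1],
   [1, 0, 0, 0, 0, -1],
   [0, 1, 0, 0, 0, -1],
   [0, 0, 0, 0, 1, -1],
   [-1, -1, -1, -1, -1, -2],
   [1345, -1235, 166, 157, -63, 259],
   [1282, -63, -54, -165, -1471, 30],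
   [2753, 1345, 1252, 1336, 1282, 1447]]

/-- the forms of the piece with mask 50 -/
def F50 : List (List ℤ) :=
  [[1, -1, 0, 0, 0, 0],
   [0, -1, 1, 0, 0, 0],
   [0, -1, 0, 1, 0, 0],
   [-1, -2, -1, -1, -1, -1],
   [1, 0, 0, 0, -1, 0],
   [0, 0, 1, 0, -1, 0],
   [0, 0, 0, 1, -1, 0],
   [-1, -1, -1, -1, -2, -1],
   [1, 0, 0, 0, 0, -1],
   [0, 0, 1, 0, 0, -1],
   [0, 0, 0, 1, 0, -1],
   [-1, -1, -1, -1, -1, -2],
   [1496, -81, -1310, 37, 140, 144],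
   [1669, -63, -195, -1144, 128, 361],
   [2978, 1360, 1184, 1468, 1260, 1487]]

/-- the forms of the piece with mask 52 -/
def F52 : List (List ℤ) :=
  [[1, 0, -1, 0, 0, 0],
   [0, 1, -1, 0, 0, 0],
   [0, 0, -1, 1, 0, 0],
   [-1, -1, -2, -1, -1, -1],
   [1, 0, 0, 0, -1, 0],
   [0, 1, 0, 0, -1, 0],
   [0, 0, 0, 1, -1, 0],
   [-1, -1, -1, -1, -2, -1],
   [1, 0, 0, 0, 0, -1],
   [0, 1, 0, 0, 0, -1],
   [0, 0, 0, 1, 0, -1],
   [-1, -1, -1, -1, -1, -2],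
   [1146, -1289, -59, 143, -4, 63],
   [1289, -143, -63, -1146, 59, 4],
   [2900, 1611, 1294, 1754, 1353, 1357]]

/-- the forms of the piece with mask 56 -/
def F56 : List (List ℤ) :=
  [[1, 0, 0, -1, 0, 0],
   [0, 1, 0, -1, 0, 0],
   [0, 0, 1, -1, 0, 0],
   [-1, -1, -1, -2, -1, -1],
   [1, 0, 0, 0, -1, 0],
   [0, 1, 0, 0, -1, 0],
   [0, 0, 1, 0, -1, 0],
   [-1, -1, -1, -1, -2, -1],
   [1, 0, 0, 0, 0, -1],
   [0, 1, 0, 0, 0, -1],
   [0, 0, 1, 0, 0, -1],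
   [-1, -1, -1, -1, -1, -2],
   [1379, -1233, 70, 247, -44, 253],
   [1184, -284, -1794, -76, -176, -303],
   [2494, 1063, 1012, 1374, 1053, 1151]]

/-- the forms of the piece with mask 70 -/
def F70 : List (List ℤ) :=
  [[1, -1, 0, 0, 0, 0],
   [0, -1, 0, 1, 0, 0],
   [0, -1, 0, 0, 1, 0],
   [0, -1, 0, 0, 0, 1],
   [1, 0, -1, 0, 0, 0],
   [0, 0, -1, 1, 0, 0],
   [0, 0, -1, 0, 1, 0],
   [0, 0, -1, 0, 0, 1],
   [2, 1, 1, 1, 1, 1],
   [1, 1, 1, 2, 1, 1],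
   [1, 1, 1, 1, 2, 1],
   [1, 1, 1, 1, 1, 2],
   [1543, -63, -4, -1357, 254, 397],
   [1083, -122, -67, -63, -1352, 80],
   [1285, -67, 55, -4, -147, -1150]]

/-- the forms of the piece with mask 74 -/
def F74 : List (List ℤ) :=
  [[1, -1, 0, 0, 0, 0],
   [0, -1, 1, 0, 0, 0],
   [0, -1, 0, 0, 1, 0],
   [0, -1, 0, 0, 0, 1],
   [1, 0, 0, -1, 0, 0],
   [0, 0, 1, -1, 0, 0],
   [0, 0, 0, -1, 1, 0],
   [0, 0, 0, -1, 0, 1],
   [2, 1, 1, 1, 1, 1],
   [1, 1, 2, 1, 1, 1],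
   [1, 1, 1, 1, 2, 1],
   [1, 1, 1, 1, 1, 2],
   [1132, -291, -1480, 6, -177, -247],
   [1260, -100, -208, -227, -1718, 76],
   [1120, -321, -311, -223, -362, -1374]]

/-- the forms of the piece with mask 76 -/
def F76 : List (List ℤ) :=
  [[1, 0, -1, 0, 0, 0],
   [0, 1, -1, 0, 0, 0],
   [0, 0, -1, 0, 1, 0],
   [0, 0, -1, 0, 0, 1],
   [1, 0, 0, -1, 0, 0],
   [0, 1, 0, -1, 0, 0],
   [0, 0, 0, -1, 1, 0],
   [0, 0, 0, -1, 0, 1],
   [2, 1, 1, 1, 1, 1],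
   [1, 2, 1, 1, 1, 1],
   [1, 1, 1, 1, 2, 1],
   [1, 1, 1, 1, 1, 2],
   [1097, -1199, -30, 199, -18, 155],
   [1053, -10, -321, -98, -1441, 41],
   [1229, -118, -221, -225, -81, -1577]]

/-- the forms of the piece with mask 82 -/
def F82 : List (List ℤ) :=
  [[1, -1, 0, 0, 0, 0],
   [0, -1, 1, 0, 0, 0],
   [0, -1, 0, 1, 0, 0],
   [0, -1, 0, 0, 0, 1],
   [1, 0, 0, 0, -1, 0],
   [0, 0, 1, 0, -1, 0],
   [0, 0, 0, 1, -1, 0],
   [0, 0, 0, 0, -1, 1],
   [2, 1, 1, 1, 1, 1],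
   [1, 1, 2, 1, 1, 1],
   [1, 1, 1, 2, 1, 1],
   [1, 1, 1, 1, 1, 2],
   [1081, -424, -1732, 132, -191, -63],
   [1199, -199, -155, -1097, 30, 18],
   [1189, -297, -114, -44, -291, -1423]]

/-- the forms of the piece with mask 84 -/
def F84 : List (List ℤ) :=
  [[1, 0, -1, 0, 0, 0],
   [0, 1, -1, 0, 0, 0],
   [0, 0, -1, 1, 0, 0],
   [0, 0, -1, 0, 0, 1],
   [1, 0, 0, 0, -1, 0],
   [0, 1, 0, 0, -1, 0],
   [0, 0, 0, 1, -1, 0],
   [0, 0, 0, 0, -1, 1],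
   [2, 1, 1, 1, 1, 1],
   [1, 2, 1, 1, 1, 1],
   [1, 1, 1, 2, 1, 1],
   [1, 1, 1, 1, 1, 2],
   [1352, -1454, -4, -144, -225, -107],
   [1491, -303, -227, -1487, -127, -19],
   [1308, -556, -233, -361, -424, -1505]]

/-- the forms of the piece with mask 88 -/
def F88 : List (List ℤ) :=
  [[1, 0, 0, -1, 0, 0],
   [0, 1, 0, -1, 0, 0],
   [0, 0, 1, -1, 0, 0],
   [0, 0, 0, -1, 0, 1],
   [1, 0, 0, 0, -1, 0],
   [0, 1, 0, 0, -1, 0],
   [0, 0, 1, 0, -1, 0],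
   [0, 0, 0, 0, -1, 1],
   [2, 1, 1, 1, 1, 1],
   [1, 2, 1, 1, 1, 1],
   [1, 1, 2, 1, 1, 1],
   [1, 1, 1, 1, 1, 2],
   [1447, -1306, 102, 195, 111, 165],
   [1188, -220, -1392, 102, 9, -157],
   [1417, -54, 9, 111, -84, -1336]]

/-- the forms of the piece with mask 98 -/
def F98 : List (List ℤ) :=
  [[1, -1, 0, 0, 0, 0],
   [0, -1, 1, 0, 0, 0],
   [0, -1, 0, 1, 0, 0],
   [0, -1, 0, 0, 1, 0],
   [1, 0, 0, 0, 0, -1],
   [0, 0, 1, 0, 0, -1],
   [0, 0, 0, 1, 0, -1],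
   [0, 0, 0, 0, 1, -1],
   [2, 1, 1, 1, 1, 1],
   [1, 1, 2, 1, 1, 1],
   [1, 1, 1, 2, 1, 1],
   [1, 1, 1, 1, 2, 1],
   [1252, -84, -1501, -30, -93, -195],
   [1306, -195, -165, -1447, -102, -111],
   [1086, -93, -322, -259, -1494, -102]]

/-- the forms of the piece with mask 100 -/
def F100 : List (List ℤ) :=
  [[1, 0, -1, 0, 0, 0],
   [0, 1, -1, 0, 0, 0],
   [0, 0, -1, 1, 0, 0],
   [0, 0, -1, 0, 1, 0],
   [1, 0, 0, 0, 0, -1],
   [0, 1, 0, 0, 0, -1],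
   [0, 0, 0, 1, 0, -1],
   [0, 0, 0, 0, 1, -1],
   [2, 1, 1, 1, 1, 1],
   [1, 2, 1, 1, 1, 1],
   [1, 1, 1, 2, 1, 1],
   [1, 1, 1, 1, 2, 1],
   [1487, -1491, 127, 303, 19, 227],
   [1343, -139, -98, -1151, -88, 223],
   [1126, -183, -297, -253, -1486, -6]]

/-- the forms of the piece with mask 104 -/
def F104 : List (List ℤ) :=
  [[1, 0, 0, -1, 0, 0],
   [0, 1, 0, -1, 0, 0],
   [0, 0, 1, -1, 0, 0],
   [0, 0, 0, -1, 1, 0],
   [1, 0, 0, 0, 0, -1],
   [0, 1, 0, 0, 0, -1],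
   [0, 0, 1, 0, 0, -1],
   [0, 0, 0, 0, 1, -1],
   [2, 1, 1, 1, 1, 1],
   [1, 2, 1, 1, 1, 1],
   [1, 1, 2, 1, 1, 1],
   [1, 1, 1, 1, 2, 1],
   [1357, -1543, -254, 63, -397, 4],
   [1294, -460, -1606, -59, -317, -63],
   [1353, -258, -401, -4, -1547, 59]]

/-- the forms of the piece with mask 112 -/
def F112 : List (List ℤ) :=
  [[1, 0, 0, 0, -1, 0],
   [0, 1, 0, 0, -1, 0],
   [0, 0, 1, 0, -1, 0],
   [0, 0, 0, 1, -1, 0],
   [1, 0, 0, 0, 0, -1],
   [0, 1, 0, 0, 0, -1],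
   [0, 0, 1, 0, 0, -1],
   [0, 0, 0, 1, 0, -1],
   [2, 1, 1, 1, 1, 1],
   [1, 2, 1, 1, 1, 1],
   [1, 1, 2, 1, 1, 1],
   [1, 1, 1, 2, 1, 1],
   [1151, -1343, 88, 139, -223, 98],
   [898, -217, -1398, -44, -229, -199],
   [1454, 144, 107, -1352, 4, 225]]

theorem forms14 : forms {1, 2, 3} = F14 := by decide +kernel

theorem forms22 : forms {1, 2, 4} = F22 := by decide +kernel

theorem forms26 : forms {1, 3, 4} = F26 := by decide +kernel

theorem forms28 : forms {2, 3, 4} = F28 := by decide +kernel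

theorem forms38 : forms {1, 2, 5} = F38 := by decide +kernel

theorem forms42 : forms {1, 3, 5} = F42 := by decide +kernel

theorem forms44 : forms {2, 3, 5} = F44 := by decide +kernel

theorem forms50 : forms {1, 4, 5} = F50 := by decide +kernel

theorem forms52 : forms {2, 4, 5} = F52 := by decide +kernel

theorem forms56 : forms {3, 4, 5} = F56 := by decide +kernel

theorem forms70 : forms {1, 2, 6} = F70 := by decide +kernel

theorem forms74 : forms {1, 3, 6} = F74 := by decide +kernel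

theorem forms76 : forms {2, 3, 6} = F76 := by decide +kernel

theorem forms82 : forms {1, 4, 6} = F82 := by decide +kernel

theorem forms84 : forms {2, 4, 6} = F84 := by decide +kernel

theorem forms88 : forms {3, 4, 6} = F88 := by decide +kernel

theorem forms98 : forms {1, 5, 6} = F98 := by decide +kernel

theorem forms100 : forms {2, 5, 6} = F100 := by decide +kernel

theorem forms104 : forms {3, 5, 6} = F104 := by decide +kernel

theorem forms112 : forms {4, 5, 6} = F112 := by decide +kernel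

end Pool.Agent.H62.Sphere
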