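import Pool.Agent.H62.Sphere.AllPairs

/-!
The counterexample: seven sets covering `S⁵`, each of diameter at most `√3.4998 < √3.5`.
-/

namespace Pool.Agent.H62.Sphere

/-- the target form -/
def T (z y : List ℝ) : ℝ := qt xx0 z + qr xy0 z y + qt xx0 y

lemma T_six {X Y : Fin 7 → ℝ} (hX : ∑ k, X k = 0) (hY : ∑ k, Y k = 0) :
    T (six X) (six Y) = 20000000 * (7499 * (∑ k, X k ^ 2 + ∑ k, Y k ^ 2)
      + 20000 * ∑ k, X k * Y k) := by
  have h6 : X 6 = -(X 0 + X 1 + X 2 + X 3 + X 4 + X 5) := by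
    simp only [Fin.sum_univ_seven] at hX; linarith
  have h6' : Y 6 = -(Y 0 + Y 1 + Y 2 + Y 3 + Y 4 + Y 5) := by
    simp only [Fin.sum_univ_seven] at hY; linarith
  simp only [T, xx0, xy0, six, qt_cons, qr_cons, dot_cons, dot_nil_left, qt_nil_left,
    qr_nil_left, Fin.sum_univ_seven, h6, h6']
  push_cast; ring

lemma T_nonneg {X Y : Fin 7 → ℝ} {L M : List (List ℤ)} (h : Good L M)
    (hL : ∀ l ∈ L, 0 ≤ dot l (six X)) (hM : ∀ l ∈ M, 0 ≤ dot l (six Y)) :
    0 ≤ T (six X) (six Y) := by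
  obtain ⟨c, hc⟩ := h
  have key : ∀ (N : List (List ℤ)) (z : List ℝ), (∀ l ∈ N, 0 ≤ dot l z) →
      ∀ i, 0 ≤ dot (N.getD i []) z := by
    intro N z hN i
    rcases lt_or_ge i N.length with hi | hi
    · rw [List.getD_eq_getElem _ _ hi]
      exact hN _ (List.getElem_mem hi)
    · rw [List.getD_eq_default _ _ hi]; simp
  exact check_sound hc (six X) (six Y) (key _ _ hL) (key _ _ hM)

/-- The main inequality. -/
theorem main_ineq {A B : Finset (Fin 7)} (hA : A.card = 3) (hA0 : 0 ∉ A) (hB : B.card = 3)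
    (hB0 : 0 ∉ B) {X Y : Fin 7 → ℝ} (hX : ∑ k, X k = 0) (hY : ∑ k, Y k = 0)
    (pX : InPiece A X) (pY : InPiece B Y) :
    0 ≤ 7499 * (∑ k, X k ^ 2 + ∑ k, Y k ^ 2) + 20000 * ∑ k, X k * Y k := by
  have : Std.Symm (fun L M => Good L M ∨ Good M L) := ⟨fun _ _ h => h.symm⟩
  have h := List.Pairwise.forall_of_forall (R := fun L M => Good L M ∨ Good M L)
    refl_all pw (forms_mem hA hA0) (forms_mem hB hB0)
  rcases h with h | h
  · have := T_nonneg h (forms_nonneg hX pX) (forms_nonneg hY pY)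
    rw [T_six hX hY] at this
    linarith
  · have := T_nonneg h (forms_nonneg hY pY) (forms_nonneg hX pX)
    rw [T_six hY hX] at this
    have hc : ∑ k, Y k * X k = ∑ k, X k * Y k := Finset.sum_congr rfl fun k _ => mul_comm _ _
    rw [hc] at this
    linarith

/-! ### The simplex -/

/-- vertices of a regular simplex inscribed in the unit sphere of `ℝ⁶` -/
noncomputable def vtx (k : Fin 7) : EuclideanSpace ℝ (Fin 6) :=
  WithLp.toLp 2 fun i : Fin 6 =>
    if k = 6 then (√6)⁻¹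
    else (√6)⁻¹ * ((if (k : ℕ) = (i : ℕ) then √7 else 0) - (√7 + 1) / 6)

/-- the coordinates of `x` with respect to the simplex -/
noncomputable def co (x : EuclideanSpace ℝ (Fin 6)) (k : Fin 7) : ℝ := inner ℝ x (vtx k)

lemma s6 : (√6)⁻¹ * (√6)⁻¹ = (1 : ℝ) / 6 := by
  rw [← mul_inv, Real.mul_self_sqrt (by norm_num)]; norm_num

lemma s7 : √7 * √7 = (7 : ℝ) := Real.mul_self_sqrt (by norm_num)

lemma inner_six (x y : EuclideanSpace ℝ (Fin 6)) :
    inner ℝ x y = x 0 * y 0 + x 1 * y 1 + x 2 * y 2 + x 3 * y 3 + x 4 * y 4 + x 5 * y 5 := by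
  simp only [PiLp.inner_apply, Fin.sum_univ_six]
  simp [mul_comm]

lemma co_six (x : EuclideanSpace ℝ (Fin 6)) :
    co x 6 = (√6)⁻¹ * (x 0 + x 1 + x 2 + x 3 + x 4 + x 5) := by
  simp only [co, inner_six, vtx]
  simp
  ring

lemma co_lt (x : EuclideanSpace ℝ (Fin 6)) (k : Fin 6) :
    co x k.castSucc = (√6)⁻¹ * (√7 * x k - (√7 + 1) / 6 * (x 0 + x 1 + x 2 + x 3 + x 4 + x 5)) := by
  simp only [co, inner_six, vtx]
  fin_cases k <;> simp <;> ring

lemma sum_co (x : EuclideanSpace ℝ (Fin 6)) : ∑ k, co x k = 0 := by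
  rw [Fin.sum_univ_castSucc]
  simp only [co_lt]
  have : (Fin.last 6 : Fin 7) = 6 := rfl
  rw [this, co_six, Fin.sum_univ_six]
  ring

lemma sum_co_mul (x y : EuclideanSpace ℝ (Fin 6)) :
    ∑ k, co x k * co y k = 7 / 6 * inner ℝ x y := by
  rw [Fin.sum_univ_castSucc]
  simp only [co_lt]
  have : (Fin.last 6 : Fin 7) = 6 := rfl
  rw [this, co_six, co_six, Fin.sum_univ_six, inner_six]
  generalize hs : (√6)⁻¹ = s
  generalize ht : (√7 : ℝ) = t
  have h6 : s * s = 1 / 6 := hs ▸ s6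
  have h7 : t * t = 7 := ht ▸ s7
  have h6' : s ^ 2 = 1 / 6 := by rw [sq, h6]
  have h7' : t ^ 2 = 7 := by rw [sq, h7]
  ring_nf
  simp only [h6', h7']
  ring

lemma vtx_six (i : Fin 6) : vtx 6 i = (√6)⁻¹ := by simp [vtx]

lemma vtx_lt (j i : Fin 6) :
    vtx j.castSucc i = (√6)⁻¹ * ((if j = i then √7 else 0) - (√7 + 1) / 6) := by
  have h : j.castSucc ≠ 6 := (Fin.castSucc_lt_last j).ne
  simp only [vtx, PiLp.toLp_apply]
  rw [if_neg h]
  simp only [Fin.val_castSucc, Fin.ext_iff]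

lemma sum_vtx_lt (j : Fin 6) :
    vtx j.castSucc 0 + vtx j.castSucc 1 + vtx j.castSucc 2 + vtx j.castSucc 3 + vtx j.castSucc 4
      + vtx j.castSucc 5 = -(√6)⁻¹ := by
  have h := Fin.sum_univ_six (fun i => vtx j.castSucc i)
  rw [← h]
  simp only [vtx_lt, ← Finset.mul_sum, Finset.sum_sub_distrib, Finset.sum_ite_eq,
    Finset.mem_univ, if_true, Finset.sum_const, Finset.card_univ, Fintype.card_fin, nsmul_eq_mul]
  push_cast; ring

lemma inner_lt_lt (j k : Fin 6) :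
    inner ℝ (vtx j.castSucc) (vtx k.castSucc) = if j = k then (1 : ℝ) else -1 / 6 := by
  have h := co_lt (vtx j.castSucc) k
  rw [sum_vtx_lt, vtx_lt] at h
  unfold co at h
  rw [h]
  have h6 := s6
  have h7 := s7
  generalize (√6)⁻¹ = s at *
  generalize (√7 : ℝ) = t at *
  have h6' : s ^ 2 = 1 / 6 := by rw [sq, h6]
  have h7' : t ^ 2 = 7 := by rw [sq, h7]
  split_ifs with hjk
  · ring_nf; simp only [h6', h7']; norm_num
  · ring_nf; simp only [h6', h7']; norm_num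

lemma inner_lt_six (j : Fin 6) : inner ℝ (vtx j.castSucc) (vtx 6) = (-1 / 6 : ℝ) := by
  have h := co_six (vtx j.castSucc)
  rw [sum_vtx_lt] at h
  unfold co at h
  rw [h]
  have h6 := s6
  linarith

lemma inner_six_six : inner ℝ (vtx 6) (vtx 6) = (1 : ℝ) := by
  rw [inner_six]
  simp only [vtx_six, s6]
  norm_num

lemma norm_vtx (k : Fin 7) : ‖vtx k‖ = 1 := by
  have h : inner ℝ (vtx k) (vtx k) = (1 : ℝ) := by
    induction k using Fin.lastCases with
    | last => exact inner_six_six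
    | cast j => rw [inner_lt_lt, if_pos rfl]
  rw [real_inner_self_eq_norm_sq] at h
  nlinarith [norm_nonneg (vtx k)]

lemma inner_vtx_ne {j k : Fin 7} (h : j ≠ k) : inner ℝ (vtx j) (vtx k) = (-1 / 6 : ℝ) := by
  induction j using Fin.lastCases with
  | last =>
    induction k using Fin.lastCases with
    | last => exact absurd rfl h
    | cast k => rw [real_inner_comm]; exact inner_lt_six k
  | cast j =>
    induction k using Fin.lastCases with
    | last => exact inner_lt_six j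
    | cast k => rw [inner_lt_lt, if_neg (fun e => h (by rw [e]))]

/-! ### The partition -/

/-- The cells. -/
def cell (i : Fin 7) : Set (EuclideanSpace ℝ (Fin 6)) :=
  {x | ∃ A : Finset (Fin 7), A.card = 3 ∧ 0 ∉ A ∧ InPiece A (fun k => co x (k + i))}

lemma mem_iUnion_cell (x : EuclideanSpace ℝ (Fin 6)) : x ∈ ⋃ i, cell i := by
  obtain ⟨i, A, h⟩ := cover (co x)
  exact Set.mem_iUnion.2 ⟨i, A, h⟩

lemma inner_ge {i : Fin 7} {x y : EuclideanSpace ℝ (Fin 6)} (hx : x ∈ cell i) (hy : y ∈ cell i)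
    (nx : ‖x‖ = 1) (ny : ‖y‖ = 1) : -7499 / 10000 ≤ inner ℝ x y := by
  obtain ⟨A, hA, hA0, pA⟩ := hx
  obtain ⟨B, hB, hB0, pB⟩ := hy
  have e : ∀ f : Fin 7 → ℝ, ∑ k, f (k + i) = ∑ k, f k := fun f =>
    Equiv.sum_comp (Equiv.addRight i) f
  have h := main_ineq hA hA0 hB hB0 ((e _).trans (sum_co x)) ((e _).trans (sum_co y)) pA pB
  rw [e (fun k => co x k ^ 2), e (fun k => co y k ^ 2), e (fun k => co x k * co y k)] at h
  simp only [sq] at h
  rw [sum_co_mul, sum_co_mul, sum_co_mul, real_inner_self_eq_norm_sq, real_inner_self_eq_norm_sq,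
    nx, ny] at h
  linarith

lemma diam_cell_le (i : Fin 7) :
    Metric.diam (cell i ∩ Metric.sphere (0 : EuclideanSpace ℝ (Fin 6)) 1) ≤ √(34998 / 10000) := by
  refine Metric.diam_le_of_forall_dist_le (Real.sqrt_nonneg _) ?_
  rintro x ⟨hx, nx⟩ y ⟨hy, ny⟩
  rw [mem_sphere_zero_iff_norm] at nx ny
  have h := inner_ge hx hy nx ny
  rw [dist_eq_norm]
  refine Real.le_sqrt_of_sq_le ?_
  rw [norm_sub_sq_real, nx, ny]
  linarith

lemma gram (j k : Fin 7) : inner ℝ (vtx j) (vtx k) = if j = k then (1 : ℝ) else -1 / 6 := by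
  split_ifs with h
  · rw [h, real_inner_self_eq_norm_sq, norm_vtx]; norm_num
  · exact inner_vtx_ne h

lemma r2 : (√2)⁻¹ * (√2)⁻¹ = (1 : ℝ) / 2 := by
  rw [← mul_inv, Real.mul_self_sqrt (by norm_num)]; norm_num

/-- first far point of the cell -/
noncomputable def pt1 : EuclideanSpace ℝ (Fin 6) := -((√2)⁻¹ • (vtx 1 + vtx 2 + vtx 3))

/-- second far point of the cell -/
noncomputable def pt2 : EuclideanSpace ℝ (Fin 6) := -((√2)⁻¹ • (vtx 4 + vtx 5 + vtx 6))

lemma inner_pt1 (j : Fin 7) : inner ℝ pt1 (vtx j) =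
    -((√2)⁻¹ * ((if 1 = j then (1 : ℝ) else -1 / 6) + (if 2 = j then (1 : ℝ) else -1 / 6)
      + (if 3 = j then (1 : ℝ) else -1 / 6))) := by
  simp only [pt1, inner_neg_left, real_inner_smul_left, inner_add_left, gram]

lemma inner_pt2 (j : Fin 7) : inner ℝ pt2 (vtx j) =
    -((√2)⁻¹ * ((if 4 = j then (1 : ℝ) else -1 / 6) + (if 5 = j then (1 : ℝ) else -1 / 6)
      + (if 6 = j then (1 : ℝ) else -1 / 6))) := by
  simp only [pt2, inner_neg_left, real_inner_smul_left, inner_add_left, gram]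

lemma inner_pt1_pt1 : inner ℝ pt1 pt1 = (1 : ℝ) := by
  have h : inner ℝ pt1 pt1 = -((√2)⁻¹ * (inner ℝ pt1 (vtx 1) + inner ℝ pt1 (vtx 2)
      + inner ℝ pt1 (vtx 3))) := by
    conv_lhs => rw [show inner ℝ pt1 pt1 = inner ℝ pt1 (-((√2)⁻¹ • (vtx 1 + vtx 2 + vtx 3))) from rfl]
    simp only [inner_neg_right, real_inner_smul_right, inner_add_right]
  rw [h]
  simp only [inner_pt1]
  have := r2
  simp
  nlinarith [this]

lemma inner_pt2_pt2 : inner ℝ pt2 pt2 = (1 : ℝ) := by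
  have h : inner ℝ pt2 pt2 = -((√2)⁻¹ * (inner ℝ pt2 (vtx 4) + inner ℝ pt2 (vtx 5)
      + inner ℝ pt2 (vtx 6))) := by
    conv_lhs => rw [show inner ℝ pt2 pt2 = inner ℝ pt2 (-((√2)⁻¹ • (vtx 4 + vtx 5 + vtx 6))) from rfl]
    simp only [inner_neg_right, real_inner_smul_right, inner_add_right]
  rw [h]
  simp only [inner_pt2]
  have := r2
  simp
  nlinarith [this]

lemma inner_pt1_pt2 : inner ℝ pt1 pt2 = (-3 / 4 : ℝ) := by
  have h : inner ℝ pt1 pt2 = -((√2)⁻¹ * (inner ℝ pt1 (vtx 4) + inner ℝ pt1 (vtx 5)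
      + inner ℝ pt1 (vtx 6))) := by
    conv_lhs => rw [show inner ℝ pt1 pt2 = inner ℝ pt1 (-((√2)⁻¹ • (vtx 4 + vtx 5 + vtx 6))) from rfl]
    simp only [inner_neg_right, real_inner_smul_right, inner_add_right]
  rw [h]
  simp only [inner_pt1]
  have := r2
  simp
  nlinarith [this]

/-- The cell of a vertex in the partition given by the simplex contains two points with inner
product `-3/4`. -/
lemma diam_simplex_cell :
    √(7 / 2) ≤ Metric.diam {x ∈ Metric.sphere (0 : EuclideanSpace ℝ (Fin 6)) 1 |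
      ∀ j : Fin 7, inner ℝ x (vtx j) ≤ inner ℝ x (vtx 0)} := by
  have hpos : 0 < (√2)⁻¹ := by positivity
  have n1 : ‖pt1‖ = 1 := by
    have := inner_pt1_pt1
    rw [real_inner_self_eq_norm_sq] at this
    nlinarith [norm_nonneg pt1]
  have n2 : ‖pt2‖ = 1 := by
    have := inner_pt2_pt2
    rw [real_inner_self_eq_norm_sq] at this
    nlinarith [norm_nonneg pt2]
  have h1 : pt1 ∈ {x ∈ Metric.sphere (0 : EuclideanSpace ℝ (Fin 6)) 1 |
      ∀ j : Fin 7, inner ℝ x (vtx j) ≤ inner ℝ x (vtx 0)} := by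
    refine ⟨by rw [mem_sphere_zero_iff_norm]; exact n1, fun j => ?_⟩
    rw [inner_pt1, inner_pt1]
    fin_cases j <;> simp <;> nlinarith [hpos]
  have h2 : pt2 ∈ {x ∈ Metric.sphere (0 : EuclideanSpace ℝ (Fin 6)) 1 |
      ∀ j : Fin 7, inner ℝ x (vtx j) ≤ inner ℝ x (vtx 0)} := by
    refine ⟨by rw [mem_sphere_zero_iff_norm]; exact n2, fun j => ?_⟩
    rw [inner_pt2, inner_pt2]
    fin_cases j <;> simp <;> nlinarith [hpos]
  have hb : Bornology.IsBounded {x ∈ Metric.sphere (0 : EuclideanSpace ℝ (Fin 6)) 1 |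
      ∀ j : Fin 7, inner ℝ x (vtx j) ≤ inner ℝ x (vtx 0)} :=
    Metric.isBounded_sphere.subset (fun x hx => hx.1)
  refine le_trans ?_ (Metric.dist_le_diam_of_mem hb h1 h2)
  rw [dist_eq_norm]
  refine Real.sqrt_le_iff.2 ⟨norm_nonneg _, ?_⟩
  rw [norm_sub_sq_real, n1, n2, inner_pt1_pt2]
  norm_num

/-- Each of our seven sets has smaller diameter than a cell of the simplex partition. -/
theorem diam_lt (i : Fin 7) :
    Metric.diam (cell i ∩ Metric.sphere (0 : EuclideanSpace ℝ (Fin 6)) 1) <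
      Metric.diam {x ∈ Metric.sphere (0 : EuclideanSpace ℝ (Fin 6)) 1 |
        ∀ j : Fin 7, inner ℝ x (vtx j) ≤ inner ℝ x (vtx 0)} :=
  (diam_cell_le i).trans_lt
    ((Real.sqrt_lt_sqrt (by norm_num) (by norm_num)).trans_le diam_simplex_cell)

end Pool.Agent.H62.Sphere
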