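import Mathlib

/-!
The table of linear forms used to define the partition of `S⁵`.
-/

namespace Pool.Agent.H62.Sphere

/-- The table of linear forms, indexed by the bit mask of a 3-subset of `{1, ..., 6}`. -/
def tbl (m : ℕ) : List ℤ :=
  match m with
  | 14 => [1146, -8, -86, 108, -470, -390, -300]
  | 22 => [994, -78, -78, -253, -78, -253, -253]
  | 26 => [967, -15, -322, -11, -74, -367, -179]
  | 28 => [952, -415, -28, 85, -145, -167, -282]
  | 38 => [952, -28, -145, -282, -415, 85, -167]
  | 42 => [901, -87, -329, 56, -276, 25, -289]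
  | 44 => [1002, -331, -2, -11, -406, 91, -343]
  | 50 => [1146, -86, -470, -300, -8, 108, -390]
  | 52 => [967, -322, -74, -179, -15, -11, -367]
  | 56 => [1001, -377, -441, 123, -55, 12, -263]
  | 70 => [967, -74, -15, -367, -322, -179, -11]
  | 74 => [1001, -55, -377, 12, -441, -263, 123]
  | 76 => [901, -276, -87, 25, -329, -289, 56]
  | 82 => [952, -145, -415, -167, -28, -282, 85]
  | 84 => [1146, -470, -8, -390, -86, -300, 108]
  | 88 => [1002, -406, -331, 91, -2, -343, -11]
  | 98 => [1002, -2, -406, -343, -331, -11, 91]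
  | 100 => [1001, -441, -55, -263, -377, 123, 12]
  | 104 => [1100, -466, -466, 99, -466, 99, 99]
  | 112 => [901, -329, -276, -289, -87, 56, 25]
  | _ => []

end Pool.Agent.H62.Sphere
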