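import Pool.Agent.H62.Sphere.Check
import Pool.Agent.H62.Sphere.Table

/-!
The pieces of the partition of the sphere `S⁵`, and the covering property.
-/

namespace Pool.Agent.H62.Sphere

/-- bit mask of a finite subset of `{0, ..., 6}` -/
def mask (A : Finset (Fin 7)) : ℕ := ∑ a ∈ A, 2 ^ (a : ℕ)

/-- the linear form attached to a set -/
def U (A : Finset (Fin 7)) (k : Fin 7) : ℤ := (tbl (mask A)).getD k 0

/-- cyclic shift of a set -/
def shift (A : Finset (Fin 7)) (j : Fin 7) : Finset (Fin 7) :=
  Finset.univ.filter fun a => a + j ∈ A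

lemma mem_shift {A : Finset (Fin 7)} {j a : Fin 7} : a ∈ shift A j ↔ a + j ∈ A := by
  simp [shift]

lemma shift_shift (A : Finset (Fin 7)) (i j : Fin 7) : shift (shift A i) j = shift A (j + i) := by
  ext a; simp [mem_shift, add_assoc]

lemma card_shift (A : Finset (Fin 7)) (j : Fin 7) : (shift A j).card = A.card := by
  refine Finset.card_bij (fun a _ => a + j) (fun a ha => mem_shift.1 ha)
    (fun a _ b _ h => by simpa using h) (fun b hb => ⟨b - j, ?_, by simp⟩)
  rw [mem_shift]; simpa using hb

/-- The piece attached to `A`. -/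
def InPiece (A : Finset (Fin 7)) (Z : Fin 7 → ℝ) : Prop :=
  (∀ a ∈ A, ∀ j, j ∉ A → Z a ≤ Z j) ∧
    ∀ j, j ∉ A → ∑ k, (U (shift A j) k : ℝ) * Z (k + j) ≤ ∑ k, (U A k : ℝ) * Z k

/-- Every vector lies in a piece, after a suitable rotation of the coordinates. -/
theorem cover (X : Fin 7 → ℝ) :
    ∃ i : Fin 7, ∃ A : Finset (Fin 7), A.card = 3 ∧ 0 ∉ A ∧ InPiece A (fun k => X (k + i)) := by
  classical
  obtain ⟨m, hm, hmin⟩ := Finset.exists_min_image (Finset.powersetCard 3 (Finset.univ : Finset (Fin 7)))
    (fun m => ∑ a ∈ m, X a) ⟨{0, 1, 2}, by decide⟩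
  have hmc : m.card = 3 := (Finset.mem_powersetCard.1 hm).2
  have hR : ∀ a ∈ m, ∀ j, j ∉ m → X a ≤ X j := by
    intro a ha j hj
    have hj' : j ∉ m.erase a := fun h => hj (Finset.mem_of_mem_erase h)
    have h1 := hmin (insert j (m.erase a)) (by
      rw [Finset.mem_powersetCard]
      refine ⟨Finset.subset_univ _, ?_⟩
      rw [Finset.card_insert_of_notMem hj', Finset.card_erase_of_mem ha, hmc])
    rw [Finset.sum_insert hj'] at h1
    have h2 := Finset.add_sum_erase m X ha
    linarith
  obtain ⟨i, hi, hmax⟩ := Finset.exists_max_image (Finset.univ \ m)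
    (fun i => ∑ k, (U (shift m i) k : ℝ) * X (k + i)) (by
      rw [Finset.sdiff_nonempty]
      intro h
      have := Finset.card_le_card h
      rw [hmc] at this
      simp at this)
  have hi' : i ∉ m := by simpa using hi
  refine ⟨i, shift m i, by rw [card_shift, hmc], ?_, ?_, ?_⟩
  · rw [mem_shift]; simpa using hi'
  · intro a ha j hj
    rw [mem_shift] at ha hj
    exact hR _ ha _ hj
  · intro j hj
    rw [mem_shift] at hj
    have h := hmax (j + i) (by simpa using hj)
    rw [shift_shift]
    simpa [add_assoc] using h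

/-- reduction of a covector modulo `(1, ..., 1)` -/
def red (c : Fin 7 → ℤ) : List ℤ :=
  [c 0 - c 6, c 1 - c 6, c 2 - c 6, c 3 - c 6, c 4 - c 6, c 5 - c 6]

/-- the first six coordinates -/
def six (Z : Fin 7 → ℝ) : List ℝ := [Z 0, Z 1, Z 2, Z 3, Z 4, Z 5]

lemma dot_red (c : Fin 7 → ℤ) (Z : Fin 7 → ℝ) (hZ : ∑ k, Z k = 0) :
    dot (red c) (six Z) = ∑ k, (c k : ℝ) * Z k := by
  have h6 : Z 6 = -(Z 0 + Z 1 + Z 2 + Z 3 + Z 4 + Z 5) := by
    simp only [Fin.sum_univ_seven] at hZ; linarith
  simp only [red, six, dot_cons, dot_nil_left, Fin.sum_univ_seven, h6]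
  push_cast; ring

/-- the forms expressing that the three smallest coordinates are those in `A` -/
def regForms (A : Finset (Fin 7)) : List (List ℤ) :=
  (List.finRange 7).flatMap fun a => (List.finRange 7).flatMap fun j =>
    if a ∈ A ∧ j ∉ A then
      [red fun k => (if k = j then 1 else 0) - (if k = a then 1 else 0)] else []

/-- the forms expressing that the score of `0` is maximal -/
def ruleForms (A : Finset (Fin 7)) : List (List ℤ) :=
  (List.finRange 7).flatMap fun j =>
    if j ∉ A ∧ j ≠ 0 then [red fun k => U A k - U (shift A j) (k - j)] else []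

/-- all the forms of the piece -/
def forms (A : Finset (Fin 7)) : List (List ℤ) := regForms A ++ ruleForms A

lemma forms_nonneg {A : Finset (Fin 7)} {Z : Fin 7 → ℝ} (hZ : ∑ k, Z k = 0) (h : InPiece A Z)
    (l : List ℤ) (hl : l ∈ forms A) : 0 ≤ dot l (six Z) := by
  rw [forms, List.mem_append] at hl
  rcases hl with hl | hl
  · simp only [regForms, List.mem_flatMap] at hl
    obtain ⟨a, -, j, -, hl⟩ := hl
    split_ifs at hl with haj
    · rw [List.mem_singleton] at hl
      subst hl
      rw [dot_red _ _ hZ]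
      have := h.1 a haj.1 j haj.2
      push_cast
      simp only [sub_mul, ite_mul, one_mul, zero_mul, Finset.sum_sub_distrib, Finset.sum_ite_eq',
        Finset.mem_univ, if_true]
      linarith
    · simp at hl
  · simp only [ruleForms, List.mem_flatMap] at hl
    obtain ⟨j, -, hl⟩ := hl
    split_ifs at hl with haj
    · rw [List.mem_singleton] at hl
      subst hl
      rw [dot_red _ _ hZ]
      have h1 := h.2 j haj.1
      have h2 : ∑ k, (U (shift A j) (k - j) : ℝ) * Z k = ∑ k, (U (shift A j) k : ℝ) * Z (k + j) :=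
        (Equiv.sum_comp (Equiv.addRight j) (fun k => (U (shift A j) (k - j) : ℝ) * Z k)).symm.trans
          (by simp)
      push_cast
      simp only [sub_mul, Finset.sum_sub_distrib]
      linarith
    · simp at hl

end Pool.Agent.H62.Sphere
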